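import Pool.Agent.H60.Col.Sound

/-! Kernel verification of the numbers `18 i + 15 < 2^20`. -/


namespace H60Col.C15

open H60Col

theorem k0 : chk 4096 0 15 = true := by decide +kernel

theorem k1 : chk 4096 4096 15 = true := by decide +kernel

theorem k2 : chk 4096 8192 15 = true := by decide +kernel

theorem k3 : chk 4096 12288 15 = true := by decide +kernel

theorem k4 : chk 4096 16384 15 = true := by decide +kernel

theorem k5 : chk 4096 20480 15 = true := by decide +kernel

theorem k6 : chk 4096 24576 15 = true := by decide +kernel

theorem k7 : chk 4096 28672 15 = true := by decide +kernel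

theorem k8 : chk 4096 32768 15 = true := by decide +kernel

theorem k9 : chk 4096 36864 15 = true := by decide +kernel

theorem k10 : chk 4096 40960 15 = true := by decide +kernel

theorem k11 : chk 4096 45056 15 = true := by decide +kernel

theorem k12 : chk 4096 49152 15 = true := by decide +kernel

theorem k13 : chk 4096 53248 15 = true := by decide +kernel

theorem k14 : chk 911 57344 15 = true := by decide +kernel

theorem cls {i : ℕ} (hi : i < 58255) : Bd (18 * i + 15) := by
  by_cases h0 : i < 4096
  · exact chk_use 4096 0 15 (by norm_num) (by norm_num) (by norm_num) k0 (by omega) (by omega)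
  by_cases h1 : i < 8192
  · exact chk_use 4096 4096 15 (by norm_num) (by norm_num) (by norm_num) k1 (by omega) (by omega)
  by_cases h2 : i < 12288
  · exact chk_use 4096 8192 15 (by norm_num) (by norm_num) (by norm_num) k2 (by omega) (by omega)
  by_cases h3 : i < 16384
  · exact chk_use 4096 12288 15 (by norm_num) (by norm_num) (by norm_num) k3 (by omega) (by omega)
  by_cases h4 : i < 20480
  · exact chk_use 4096 16384 15 (by norm_num) (by norm_num) (by norm_num) k4 (by omega) (by omega)
  by_cases h5 : i < 24576
  · exact chk_use 4096 20480 15 (by norm_num) (by norm_num) (by norm_num) k5 (by omega) (by omega)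
  by_cases h6 : i < 28672
  · exact chk_use 4096 24576 15 (by norm_num) (by norm_num) (by norm_num) k6 (by omega) (by omega)
  by_cases h7 : i < 32768
  · exact chk_use 4096 28672 15 (by norm_num) (by norm_num) (by norm_num) k7 (by omega) (by omega)
  by_cases h8 : i < 36864
  · exact chk_use 4096 32768 15 (by norm_num) (by norm_num) (by norm_num) k8 (by omega) (by omega)
  by_cases h9 : i < 40960
  · exact chk_use 4096 36864 15 (by norm_num) (by norm_num) (by norm_num) k9 (by omega) (by omega)
  by_cases h10 : i < 45056
  · exact chk_use 4096 40960 15 (by norm_num) (by norm_num) (by norm_num) k10 (by omega) (by omega)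
  by_cases h11 : i < 49152
  · exact chk_use 4096 45056 15 (by norm_num) (by norm_num) (by norm_num) k11 (by omega) (by omega)
  by_cases h12 : i < 53248
  · exact chk_use 4096 49152 15 (by norm_num) (by norm_num) (by norm_num) k12 (by omega) (by omega)
  by_cases h13 : i < 57344
  · exact chk_use 4096 53248 15 (by norm_num) (by norm_num) (by norm_num) k13 (by omega) (by omega)
  exact chk_use 911 57344 15 (by norm_num) (by norm_num) (by norm_num) k14 (by omega) (by omega)

end H60Col.C15
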