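import Pool.Agent.H1.Col.Pack

/-! Packed verification of the residue bound for `x < 2^20`: definitions for the kernel. -/

namespace H60Col

open H1Col

/-- fields of 64 bits, all equal to `1` -/
def onesK (n : ℕ) : ℕ := Nat.div (Nat.sub (Nat.pow 2 (Nat.mul 64 n)) 1) 18446744073709551615

/-- fields `0, 1, ..., n-1` -/
def idxK (n : ℕ) : ℕ :=
  Nat.div (Nat.sub (Nat.add (Nat.mul (Nat.sub n 1) (Nat.pow 2 (Nat.mul 64 n))) 1) (onesK n))
    18446744073709551615

/-- flags of the odd fields `> 1` -/
def fm (ones c63 N : ℕ) : ℕ :=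
  Nat.land (Nat.shiftRight (Nat.add N c63) 63) (Nat.land N ones)

/-- step of the orbit -/
def stN (ones msk m N : ℕ) : ℕ :=
  Nat.shiftRight (Nat.add (Nat.add N (Nat.land N ones))
    (Nat.shiftLeft (Nat.land (Nat.mul m msk) N) 1)) 1

/-- step of the linearised orbit, before halving -/
def stX (ones msk m N L : ℕ) : ℕ :=
  Nat.add (Nat.add L (Nat.shiftLeft (Nat.land (Nat.mul m msk) L) 1))
    (Nat.land (Nat.mul (Nat.sub (Nat.land N ones) m) msk) L)

def stH (ones X : ℕ) : ℕ := Nat.shiftRight (Nat.sub X (Nat.land X ones)) 1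

/-- `fuel` steps with overflow checks, then the final check -/
def rn (ones c63 msk top cl : ℕ) (fuel : ℕ) : ℕ → ℕ → Bool :=
  Nat.rec (motive := fun _ => ℕ → ℕ → Bool)
    (fun N L => cond (Nat.beq N ones)
      (Nat.beq (Nat.land (Nat.shiftRight (Nat.add L cl) 63) ones) ones) false)
    (fun _ ih N L =>
      (fun m => (fun N' L' => cond (Nat.beq (Nat.land (Nat.add N' L') top) 0) (ih N' L') false)
        (stN ones msk m N) (stH ones (stX ones msk m N L))) (fm ones c63 N))
    fuel

/-- the verification of the numbers `18 (i + s) + c`, `i < n` -/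
def chk (n s c : ℕ) : Bool :=
  (fun ones => (fun x0 =>
    rn ones (Nat.mul ones 9223372036854775806) 18446744073709551615
      (Nat.mul ones 13835058055282163712) (Nat.mul ones 9223372036841387772) 330
      x0 (Nat.shiftLeft x0 24))
    (Nat.add (Nat.mul 18 (idxK n)) (Nat.mul (Nat.add (Nat.mul 18 s) c) ones))) (onesK n)

end H60Col
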