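import Pool.Agent.H60.Col.Def

/-! Soundness of the packed verification. -/

namespace H60Col

open H1Col Finset

theorem ones_aux (n : ℕ) : 18446744073709551615 * pk 64 (fun _ => 1) n + 1 = 2 ^ (64 * n) := by
  induction n with
  | zero => simp
  | succ n ih =>
      rw [pk_succ, Nat.mul_succ, pow_add]
      have : (2 : ℕ) ^ 64 = 18446744073709551616 := by norm_num
      rw [this]
      linarith

theorem onesK_eq (n : ℕ) : onesK n = pk 64 (fun _ => 1) n := by
  show (2 ^ (64 * n) - 1) / 18446744073709551615 = _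
  rw [← ones_aux n, Nat.add_sub_cancel]
  exact Nat.mul_div_cancel_left _ (by norm_num)

theorem idx_aux (n : ℕ) :
    18446744073709551615 * pk 64 (fun i => i) n + pk 64 (fun _ => 1) n + 2 ^ (64 * n) =
      n * 2 ^ (64 * n) + 1 := by
  induction n with
  | zero => simp
  | succ n ih =>
      rw [pk_succ, pk_succ, Nat.mul_succ, pow_add]
      have : (2 : ℕ) ^ 64 = 18446744073709551616 := by norm_num
      rw [this]
      nlinarith [ih]

theorem idxK_eq {n : ℕ} (hn : 0 < n) : idxK n = pk 64 (fun i => i) n := by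
  show ((n - 1) * 2 ^ (64 * n) + 1 - onesK n) / 18446744073709551615 = _
  rw [onesK_eq]
  have h := idx_aux n
  obtain ⟨m, rfl⟩ : ∃ m, n = m + 1 := ⟨n - 1, by omega⟩
  have e : m * 2 ^ (64 * (m + 1)) + 1 - pk 64 (fun _ => 1) (m + 1) =
      18446744073709551615 * pk 64 (fun i => i) (m + 1) := by
    have h2 : (m + 1) * 2 ^ (64 * (m + 1)) = m * 2 ^ (64 * (m + 1)) + 2 ^ (64 * (m + 1)) := by ring
    omega
  rw [Nat.add_sub_cancel, e]
  exact Nat.mul_div_cancel_left _ (by norm_num)

/-- the top bits of the fields, masked by a `0/1` vector -/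
theorem shr_land {n : ℕ} {F e : ℕ → ℕ} (hF : ∀ i < n, F i < 2 ^ 64) (he : ∀ i < n, e i ≤ 1) :
    (pk 64 F n >>> 63) &&& pk 64 e n = pk 64 (fun i => F i / 2 ^ 63 * e i) n := by
  have he' : ∀ i < n, e i < 2 ^ 64 := fun i hi => lt_of_le_of_lt (he i hi) (by norm_num)
  have hv : ∀ i < n, F i / 2 ^ 63 * e i < 2 ^ 64 := by
    intro i hi
    have h1 := hF i hi
    have h2 := he i hi
    have h3 : F i / 2 ^ 63 < 2 := by
      apply Nat.div_lt_of_lt_mul
      calc F i < 2 ^ 64 := h1
        _ = 2 ^ 63 * 2 := by norm_num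
    calc F i / 2 ^ 63 * e i ≤ 1 * 1 := Nat.mul_le_mul (by omega) h2
      _ < 2 ^ 64 := by norm_num
  apply Nat.eq_of_testBit_eq
  intro j
  rw [Nat.testBit_and, Nat.testBit_shiftRight]
  by_cases hj : 64 * n ≤ j
  · rw [pk_testBit_ge he' hj, pk_testBit_ge hv hj]
    simp
  · push Not at hj
    obtain ⟨q, b, hb, rfl⟩ : ∃ q b, b < 64 ∧ j = 64 * q + b :=
      ⟨j / 64, j % 64, Nat.mod_lt _ (by norm_num), (Nat.div_add_mod j 64).symm⟩
    have h1 : q < n := by omega
    have h4 := he _ h1
    have h5 : F q / 2 ^ 63 < 2 := by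
      apply Nat.div_lt_of_lt_mul
      calc F q < 2 ^ 64 := hF _ h1
        _ = 2 ^ 63 * 2 := by norm_num
    rcases Nat.eq_zero_or_pos b with rfl | h0
    · have e2 : 63 + (64 * q + 0) = 64 * q + 63 := by omega
      rw [e2, pk_testBit hF _ h1 63 (by norm_num), pk_testBit he' _ h1 0 (by norm_num),
        pk_testBit hv _ h1 0 (by norm_num)]
      rw [Nat.testBit_eq_decide_div_mod_eq, Nat.testBit_eq_decide_div_mod_eq,
        Nat.testBit_eq_decide_div_mod_eq]
      rw [pow_zero, Nat.div_one, Nat.div_one]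
      have key : ∀ y z : ℕ, y < 2 → z ≤ 1 →
          (decide (y % 2 = 1) && decide (z % 2 = 1)) = decide (y * z % 2 = 1) := by
        intro y z hy hz
        interval_cases y <;> interval_cases z <;> rfl
      exact key _ _ h5 h4
    · rw [pk_testBit he' _ h1 _ hb, pk_testBit hv _ h1 _ hb]
      have h3 : ∀ v : ℕ, v ≤ 1 → v.testBit b = false := by
        intro v hv1
        apply Nat.testBit_lt_two_pow
        calc v ≤ 1 := hv1
          _ < 2 ^ b := Nat.one_lt_two_pow (by omega)
      rw [h3 _ h4, h3 _ (by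
        calc F q / 2 ^ 63 * e q ≤ 1 * 1 := Nat.mul_le_mul (by omega) h4
          _ = 1 := by norm_num)]
      simp

/-- the step on pairs -/
def tn (n : ℕ) : ℕ := if n = 1 then 1 else T n

def tl (n l : ℕ) : ℕ := if n = 1 then l else if n % 2 = 0 then l / 2 else 3 * l / 2

/-- the flag of a field -/
def fl (n : ℕ) : ℕ := (n + 9223372036854775806) / 2 ^ 63 * (n % 2)

theorem fl_eq {n : ℕ} (h : n < 2 ^ 62) : fl n = if n % 2 = 1 ∧ n ≠ 1 then 1 else 0 := by
  unfold fl
  norm_num at h ⊢
  rcases Nat.mod_two_eq_zero_or_one n with e | e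
  · rw [e]; simp
  · rw [e]
    by_cases h1 : n = 1
    · subst h1; norm_num
    · have h2 : 2 ≤ n := by omega
      have h3 : (n + 9223372036854775806) / 9223372036854775808 = 1 := by omega
      rw [h3]
      simp [h1]

theorem fm_pk {n : ℕ} {f : ℕ → ℕ} (hf : ∀ i < n, f i < 2 ^ 62) :
    fm (pk 64 (fun _ => 1) n) (Nat.mul (pk 64 (fun _ => 1) n) 9223372036854775806) (pk 64 f n) =
      pk 64 (fun i => fl (f i)) n := by
  show ((pk 64 f n + pk 64 (fun _ => 1) n * 9223372036854775806) >>> 63) &&&
    (pk 64 f n &&& pk 64 (fun _ => 1) n) = _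
  rw [pk_const_mul, pk_add, pk_land (fun i hi => lt_trans (hf i hi) (by norm_num))
    (fun i _ => by norm_num)]
  rw [pk_congr (f := fun i => f i &&& 1) (g := fun i => f i % 2) (fun i _ => land_one_eq _),
    shr_land]
  · rfl
  · intro i hi
    have := hf i hi
    norm_num at this ⊢
    omega
  · intro i _
    omega

theorem land_mask_fl {m x : ℕ} (hm : m = 0 ∨ m = 1) (hx : x < 2 ^ 64) :
    (m * 18446744073709551615 &&& x) = m * x := by
  rcases hm with rfl | rfl
  · simp
  · rw [one_mul, one_mul]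
    exact land_mask_one (w := 64) hx

theorem fl_01 {n : ℕ} (h : n < 2 ^ 62) : fl n = 0 ∨ fl n = 1 := by
  rw [fl_eq h]; split_ifs <;> simp

theorem stN_pk {n : ℕ} {f : ℕ → ℕ} (hf : ∀ i < n, f i < 2 ^ 62) (hp : ∀ i < n, 0 < f i) :
    stN (pk 64 (fun _ => 1) n) 18446744073709551615 (pk 64 (fun i => fl (f i)) n) (pk 64 f n) =
      pk 64 (fun i => tn (f i)) n := by
  have hf' : ∀ i < n, f i < 2 ^ 64 := fun i hi => lt_trans (hf i hi) (by norm_num)
  show ((pk 64 f n + (pk 64 f n &&& pk 64 (fun _ => 1) n)) +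
    ((pk 64 (fun i => fl (f i)) n * 18446744073709551615 &&& pk 64 f n) <<< 1)) >>> 1 = _
  rw [pk_land hf' (fun i _ => by norm_num),
    pk_congr (f := fun i => f i &&& 1) (g := fun i => f i % 2) (fun i _ => land_one_eq _),
    pk_mul, pk_land (fun i hi => by
      rcases fl_01 (hf i hi) with h | h <;> rw [h] <;> norm_num) hf',
    pk_congr (f := fun i => fl (f i) * 18446744073709551615 &&& f i)
      (g := fun i => fl (f i) * f i) (fun i hi => land_mask_fl (fl_01 (hf i hi)) (hf' i hi)),
    Nat.shiftLeft_eq, pow_one, pk_mul, pk_add, pk_add, Nat.shiftRight_eq_div_pow, pow_one]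
  have : ∀ i < n, f i + f i % 2 + fl (f i) * f i * 2 = 2 * tn (f i) := by
    intro i hi
    rw [fl_eq (hf i hi)]
    unfold tn
    have h0 := hp i hi
    by_cases h1 : f i = 1
    · rw [h1]; norm_num
    · rw [if_neg h1]
      rcases Nat.mod_two_eq_zero_or_one (f i) with e | e
      · rw [two_T_even e, e]; simp
      · rw [two_T_odd e, e]
        simp [h1]
        ring
  rw [pk_congr this, pk_half]

theorem stL_pk {n : ℕ} {f g : ℕ → ℕ} (hf : ∀ i < n, f i < 2 ^ 62) (hp : ∀ i < n, 0 < f i)
    (hg : ∀ i < n, g i < 2 ^ 62) :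
    stH (pk 64 (fun _ => 1) n) (stX (pk 64 (fun _ => 1) n) 18446744073709551615
      (pk 64 (fun i => fl (f i)) n) (pk 64 f n) (pk 64 g n)) =
      pk 64 (fun i => tl (f i) (g i)) n := by
  have hf' : ∀ i < n, f i < 2 ^ 64 := fun i hi => lt_trans (hf i hi) (by norm_num)
  have hg' : ∀ i < n, g i < 2 ^ 64 := fun i hi => lt_trans (hg i hi) (by norm_num)
  have hle : ∀ i < n, fl (f i) ≤ f i % 2 := by
    intro i hi
    rw [fl_eq (hf i hi)]
    split_ifs with h
    · omega
    · omega
  have hX : stX (pk 64 (fun _ => 1) n) 18446744073709551615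
      (pk 64 (fun i => fl (f i)) n) (pk 64 f n) (pk 64 g n) =
      pk 64 (fun i => g i + fl (f i) * g i * 2 + (f i % 2 - fl (f i)) * g i) n := by
    show (pk 64 g n + ((pk 64 (fun i => fl (f i)) n * 18446744073709551615 &&& pk 64 g n) <<< 1)) +
      (((pk 64 f n &&& pk 64 (fun _ => 1) n) - pk 64 (fun i => fl (f i)) n) *
        18446744073709551615 &&& pk 64 g n) = _
    rw [pk_land hf' (fun i _ => by norm_num),
      pk_congr (f := fun i => f i &&& 1) (g := fun i => f i % 2) (fun i _ => land_one_eq _),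
      pk_sub hle, pk_mul, pk_mul, pk_land (fun i hi => by
        rcases fl_01 (hf i hi) with h | h <;> rw [h] <;> norm_num) hg',
      pk_land (fun i hi => by
        have h1 : f i % 2 - fl (f i) ≤ 1 := by omega
        calc (f i % 2 - fl (f i)) * 18446744073709551615 ≤ 1 * 18446744073709551615 :=
            Nat.mul_le_mul_right _ h1
          _ < 2 ^ 64 := by norm_num) hg',
      pk_congr (f := fun i => fl (f i) * 18446744073709551615 &&& g i)
        (g := fun i => fl (f i) * g i) (fun i hi => land_mask_fl (fl_01 (hf i hi)) (hg' i hi)),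
      pk_congr (f := fun i => (f i % 2 - fl (f i)) * 18446744073709551615 &&& g i)
        (g := fun i => (f i % 2 - fl (f i)) * g i) (fun i hi => land_mask_fl (by omega) (hg' i hi)),
      Nat.shiftLeft_eq, pow_one, pk_mul, pk_add, pk_add]
  rw [hX]
  set X : ℕ → ℕ := fun i => g i + fl (f i) * g i * 2 + (f i % 2 - fl (f i)) * g i with hXd
  have hXv : ∀ i < n, X i / 2 = tl (f i) (g i) ∧ X i < 2 ^ 64 := by
    intro i hi
    have h0 := hp i hi
    have h1 := hg i hi
    rw [hXd]
    simp only
    rw [fl_eq (hf i hi)]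
    unfold tl
    norm_num at h1 ⊢
    by_cases h2 : f i = 1
    · rw [h2]
      norm_num
      omega
    · rcases Nat.mod_two_eq_zero_or_one (f i) with e | e
      · rw [e]
        simp [h2]
        omega
      · rw [e]
        simp [h2]
        omega
  show (pk 64 X n - (pk 64 X n &&& pk 64 (fun _ => 1) n)) >>> 1 = _
  rw [pk_land (fun i hi => (hXv i hi).2) (fun i _ => by norm_num),
    pk_congr (f := fun i => X i &&& 1) (g := fun i => X i % 2) (fun i _ => land_one_eq _),
    pk_sub (fun i _ => Nat.mod_le _ _), Nat.shiftRight_eq_div_pow, pow_one]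
  have : ∀ i < n, X i - X i % 2 = 2 * tl (f i) (g i) := by
    intro i hi
    rw [← (hXv i hi).1]
    omega
  rw [pk_congr this, pk_half]

theorem pk_eq_zero {w n : ℕ} {f : ℕ → ℕ} (h : pk w f n = 0) : ∀ i < n, f i = 0 := by
  intro i hi
  unfold pk at h
  have h1 := (Finset.sum_eq_zero_iff_of_nonneg (fun _ _ => Nat.zero_le _)).1 h i (mem_range.2 hi)
  rcases Nat.mul_eq_zero.1 h1 with h2 | h2
  · exact h2
  · exact absurd h2 (by positivity)

theorem lt_of_land_top {x : ℕ} (hx : x < 2 ^ 64) (h : x &&& 13835058055282163712 = 0) :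
    x < 2 ^ 62 := by
  by_contra hge
  push Not at hge
  have h1 : x / 2 ^ 62 < 4 := by
    apply Nat.div_lt_of_lt_mul
    calc x < 2 ^ 64 := hx
      _ = 2 ^ 62 * 4 := by norm_num
  have h2 : 1 ≤ x / 2 ^ 62 := (Nat.one_le_div_iff (by positivity)).2 hge
  have h3 : (x &&& 13835058055282163712).testBit 62 = false := by rw [h]; simp
  have h4 : (x &&& 13835058055282163712).testBit 63 = false := by rw [h]; simp
  rw [Nat.testBit_and] at h3 h4
  have h5 : (13835058055282163712 : ℕ).testBit 62 = true := by decide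
  have h6 : (13835058055282163712 : ℕ).testBit 63 = true := by decide
  rw [h5, Bool.and_true] at h3
  rw [h6, Bool.and_true] at h4
  rw [Nat.testBit_eq_decide_div_mod_eq] at h3 h4
  simp only [decide_eq_false_iff_not] at h3 h4
  have h7 : x / 2 ^ 63 = x / 2 ^ 62 / 2 := by
    rw [Nat.div_div_eq_div_mul]
    norm_num
  rw [h7] at h4
  generalize x / 2 ^ 62 = y at *
  omega

theorem tn_le {n : ℕ} (h0 : 0 < n) : tn n ≤ (3 * n + 1) / 2 := by
  unfold tn T
  split_ifs <;> omega

theorem tn_pos {n : ℕ} (h0 : 0 < n) : 0 < tn n := by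
  unfold tn
  split_ifs
  · norm_num
  · exact T_pos h0

theorem tl_le (n l : ℕ) : tl n l ≤ 3 * l / 2 := by
  unfold tl
  split_ifs <;> omega

/-- iterated step on a pair -/
def it : ℕ → ℕ × ℕ → ℕ × ℕ
  | 0, p => p
  | k + 1, p => it k (tn p.1, tl p.1 p.2)

theorem rn_sound {n : ℕ} (cl : ℕ) (hcl : cl ≤ 2 ^ 63) (hcl' : 0 < cl) (k : ℕ) :
    ∀ f g : ℕ → ℕ, (∀ i < n, f i < 2 ^ 62) → (∀ i < n, 0 < f i) → (∀ i < n, g i < 2 ^ 62) →
    rn (pk 64 (fun _ => 1) n) (Nat.mul (pk 64 (fun _ => 1) n) 9223372036854775806)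
      18446744073709551615 (Nat.mul (pk 64 (fun _ => 1) n) 13835058055282163712)
      (Nat.mul (pk 64 (fun _ => 1) n) cl) k (pk 64 f n) (pk 64 g n) = true →
    ∀ i < n, (it k (f i, g i)).1 = 1 ∧ 2 ^ 63 ≤ (it k (f i, g i)).2 + cl := by
  induction k with
  | zero =>
      intro f g hf hp hg h i hi
      change cond (Nat.beq (pk 64 f n) (pk 64 (fun _ => 1) n))
        (Nat.beq (Nat.land (Nat.shiftRight (Nat.add (pk 64 g n)
          (Nat.mul (pk 64 (fun _ => 1) n) cl)) 63) (pk 64 (fun _ => 1) n))
          (pk 64 (fun _ => 1) n)) false = true at h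
      rcases hb : Nat.beq (pk 64 f n) (pk 64 (fun _ => 1) n) with _ | _
      · rw [hb] at h; exact absurd h (by simp)
      · rw [hb] at h
        change Nat.beq _ _ = true at h
        have h1 := Nat.eq_of_beq_eq_true hb
        have h2 := Nat.eq_of_beq_eq_true h
        change ((pk 64 g n + pk 64 (fun _ => 1) n * cl) >>> 63) &&& pk 64 (fun _ => 1) n =
          pk 64 (fun _ => 1) n at h2
        rw [pk_const_mul, pk_add, shr_land (fun i hi => by
          have := hg i hi
          norm_num at this hcl ⊢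
          omega) (fun i _ => le_refl _)] at h2
        have inj : ∀ {F G : ℕ → ℕ}, (∀ i < n, F i < 2 ^ 64) → (∀ i < n, G i < 2 ^ 64) →
            pk 64 F n = pk 64 G n → F i = G i := by
          intro F G hF hG he
          apply Nat.eq_of_testBit_eq
          intro b
          by_cases hb : b < 64
          · rw [← pk_testBit hF i hi b hb, ← pk_testBit hG i hi b hb, he]
          · push Not at hb
            rw [Nat.testBit_lt_two_pow (lt_of_lt_of_le (hF i hi)
              (Nat.pow_le_pow_right (by norm_num) hb)),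
              Nat.testBit_lt_two_pow (lt_of_lt_of_le (hG i hi)
              (Nat.pow_le_pow_right (by norm_num) hb))]
        have h3 := inj (fun i hi => lt_trans (hf i hi) (by norm_num)) (fun i _ => by norm_num) h1
        have h4 := inj (fun i hi => by
          have := hg i hi
          have h5 : (g i + cl) / 2 ^ 63 < 2 := by
            apply Nat.div_lt_of_lt_mul
            norm_num at this hcl ⊢
            omega
          calc (g i + cl) / 2 ^ 63 * 1 ≤ 1 * 1 := Nat.mul_le_mul_right _ (by omega)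
            _ < 2 ^ 64 := by norm_num) (fun i _ => by norm_num) h2
        refine ⟨h3, ?_⟩
        simp only [it]
        simp only [mul_one] at h4
        by_contra hlt
        push Not at hlt
        rw [Nat.div_eq_of_lt hlt] at h4
        exact absurd h4 (by norm_num)
  | succ k ih =>
      intro f g hf hp hg h i hi
      change cond (Nat.beq (Nat.land (Nat.add
        (stN (pk 64 (fun _ => 1) n) 18446744073709551615
          (fm (pk 64 (fun _ => 1) n) (Nat.mul (pk 64 (fun _ => 1) n) 9223372036854775806)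
            (pk 64 f n)) (pk 64 f n))
        (stH (pk 64 (fun _ => 1) n) (stX (pk 64 (fun _ => 1) n) 18446744073709551615
          (fm (pk 64 (fun _ => 1) n) (Nat.mul (pk 64 (fun _ => 1) n) 9223372036854775806)
            (pk 64 f n)) (pk 64 f n) (pk 64 g n))))
          (Nat.mul (pk 64 (fun _ => 1) n) 13835058055282163712)) 0)
        (rn (pk 64 (fun _ => 1) n) (Nat.mul (pk 64 (fun _ => 1) n) 9223372036854775806)
          18446744073709551615 (Nat.mul (pk 64 (fun _ => 1) n) 13835058055282163712)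
          (Nat.mul (pk 64 (fun _ => 1) n) cl) k
          (stN (pk 64 (fun _ => 1) n) 18446744073709551615
          (fm (pk 64 (fun _ => 1) n) (Nat.mul (pk 64 (fun _ => 1) n) 9223372036854775806)
            (pk 64 f n)) (pk 64 f n))
          (stH (pk 64 (fun _ => 1) n) (stX (pk 64 (fun _ => 1) n) 18446744073709551615
          (fm (pk 64 (fun _ => 1) n) (Nat.mul (pk 64 (fun _ => 1) n) 9223372036854775806)
            (pk 64 f n)) (pk 64 f n) (pk 64 g n)))) false = true at h
      rw [fm_pk hf, stN_pk hf hp, stL_pk hf hp hg] at h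
      rcases hb : Nat.beq (Nat.land (Nat.add (pk 64 (fun i => tn (f i)) n)
          (pk 64 (fun i => tl (f i) (g i)) n))
          (Nat.mul (pk 64 (fun _ => 1) n) 13835058055282163712)) 0 with _ | _
      · rw [hb] at h; exact absurd h (by simp)
      · rw [hb] at h
        change rn _ _ _ _ _ k _ _ = true at h
        have h1 := Nat.eq_of_beq_eq_true hb
        change ((pk 64 (fun i => tn (f i)) n + pk 64 (fun i => tl (f i) (g i)) n) &&&
          pk 64 (fun _ => 1) n * 13835058055282163712) = 0 at h1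
        have hs : ∀ i < n, tn (f i) + tl (f i) (g i) < 2 ^ 64 := by
          intro i hi
          have a1 := hf i hi
          have a2 := hg i hi
          have a3 := tn_le (hp i hi)
          have a4 := tl_le (f i) (g i)
          norm_num at a1 a2 ⊢
          omega
        rw [pk_const_mul, pk_add, pk_land hs (fun i _ => by norm_num)] at h1
        have h2 := pk_eq_zero h1
        have h3 : ∀ i < n, tn (f i) + tl (f i) (g i) < 2 ^ 62 := fun i hi =>
          lt_of_land_top (hs i hi) (h2 i hi)
        have h4 := ih (fun i => tn (f i)) (fun i => tl (f i) (g i))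
          (fun i hi => by have := h3 i hi; omega) (fun i hi => tn_pos (hp i hi))
          (fun i hi => by have := h3 i hi; omega) h i hi
        exact h4

/-- the invariant of the iteration -/
theorem it_inv {x : ℕ} (hx : 0 < x) (c : ℕ) (k : ℕ) : ∀ (t : ℕ) (l : ℕ),
    l * 2 ^ t ≤ c * 3 ^ od x t * x → ∃ t', (it k (T^[t] x, l)).1 = T^[t'] x ∧
      (it k (T^[t] x, l)).2 * 2 ^ t' ≤ c * 3 ^ od x t' * x := by
  induction k with
  | zero => intro t l h; exact ⟨t, rfl, h⟩
  | succ k ih =>
      intro t l h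
      simp only [it]
      have hpos := iter_pos hx t
      by_cases h1 : T^[t] x = 1
      · rw [h1]
        have e1 : tn 1 = 1 := by simp [tn]
        have e2 : tl 1 l = l := by simp [tl]
        rw [e1, e2]
        have := ih t l h
        rw [h1] at this
        exact this
      · have e1 : tn (T^[t] x) = T^[t + 1] x := by
          rw [tn, if_neg h1, iter_succ]
        rw [e1]
        apply ih
        rw [od_succ, tl, if_neg h1]
        rcases Nat.mod_two_eq_zero_or_one (T^[t] x) with e | e
        · rw [e, if_pos rfl, Nat.add_zero, pow_succ]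
          calc l / 2 * (2 ^ t * 2) = l / 2 * 2 * 2 ^ t := by ring
            _ ≤ l * 2 ^ t := Nat.mul_le_mul_right _ (Nat.div_mul_le_self l 2)
            _ ≤ _ := h
        · rw [e, if_neg (by norm_num), pow_succ, pow_succ]
          calc 3 * l / 2 * (2 ^ t * 2) = 3 * l / 2 * 2 * 2 ^ t := by ring
            _ ≤ 3 * l * 2 ^ t := Nat.mul_le_mul_right _ (Nat.div_mul_le_self _ 2)
            _ = 3 * (l * 2 ^ t) := by ring
            _ ≤ 3 * (c * 3 ^ od x t * x) := Nat.mul_le_mul_left _ h
            _ = _ := by ring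

/-- the bound to be verified -/
def Bd (x : ℕ) : Prop := ∃ N, T^[N] x = 1 ∧ 100000 * 2 ^ N ≤ 125315 * 3 ^ od x N * x

theorem chk_sound {n s c : ℕ} (hn : 0 < n) (hc : 0 < c) (hb : 18 * (n + s) + c < 2 ^ 38)
    (h : chk n s c = true) : ∀ i < n, Bd (18 * (i + s) + c) := by
  intro i hi
  have e0 : Nat.add (Nat.mul 18 (idxK n)) (Nat.mul (Nat.add (Nat.mul 18 s) c) (onesK n)) =
      pk 64 (fun i => 18 * (i + s) + c) n := by
    show 18 * idxK n + (18 * s + c) * onesK n = _
    rw [idxK_eq hn, onesK_eq, mul_comm 18, mul_comm (18 * s + c), pk_mul, pk_mul, pk_add]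
    apply pk_congr
    intro i _
    ring
  have hx0 : ∀ i < n, 18 * (i + s) + c < 2 ^ 38 := fun i hi => by omega
  have h' : rn (onesK n) (Nat.mul (onesK n) 9223372036854775806) 18446744073709551615
      (Nat.mul (onesK n) 13835058055282163712) (Nat.mul (onesK n) 9223372036841387772) 330
      (Nat.add (Nat.mul 18 (idxK n)) (Nat.mul (Nat.add (Nat.mul 18 s) c) (onesK n)))
      (Nat.shiftLeft (Nat.add (Nat.mul 18 (idxK n))
        (Nat.mul (Nat.add (Nat.mul 18 s) c) (onesK n))) 24) = true := h
  rw [e0] at h'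
  have e1 : Nat.shiftLeft (pk 64 (fun i => 18 * (i + s) + c) n) 24 =
      pk 64 (fun i => (18 * (i + s) + c) * 2 ^ 24) n := by
    show (pk 64 (fun i => 18 * (i + s) + c) n) <<< 24 = _
    rw [Nat.shiftLeft_eq, pk_mul]
  rw [e1, onesK_eq] at h'
  have h1 := rn_sound 9223372036841387772 (by norm_num) (by norm_num) 330
    (fun i => 18 * (i + s) + c) (fun i => (18 * (i + s) + c) * 2 ^ 24)
    (fun i hi => by have := hx0 i hi; norm_num at this ⊢; omega) (fun i hi => by omega)
    (fun i hi => by have := hx0 i hi; norm_num at this ⊢; omega) h' i hi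
  set x := 18 * (i + s) + c with hxd
  have hx : 0 < x := by omega
  obtain ⟨t, ht1, ht2⟩ := it_inv hx (2 ^ 24) 330 0 (x * 2 ^ 24) (by simp [mul_comm])
  simp only [Function.iterate_zero, id] at ht1 ht2
  rw [h1.1] at ht1
  refine ⟨t, ht1.symm, ?_⟩
  have h2 : 13388036 ≤ (it 330 (x, x * 2 ^ 24)).2 := by
    have := h1.2
    norm_num at this
    omega
  have h3 : 13388036 * 2 ^ t ≤ 2 ^ 24 * 3 ^ od x t * x :=
    le_trans (Nat.mul_le_mul_right _ h2) ht2
  norm_num at h3
  rw [mul_assoc] at h3 ⊢
  generalize 3 ^ od x t * x = y at *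
  generalize 2 ^ t = z at *
  omega

theorem chk_use (n s c : ℕ) (hn : 0 < n) (hc : 0 < c) (hb : 18 * (n + s) + c < 2 ^ 38)
    (h : chk n s c = true) {i : ℕ} (h1 : s ≤ i) (h2 : i < s + n) : Bd (18 * i + c) := by
  have := chk_sound hn hc hb h (i - s) (by omega)
  rwa [Nat.sub_add_cancel h1] at this

end H60Col
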