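import Pool.Agent.H60.Col.C1
import Pool.Agent.H60.Col.C3
import Pool.Agent.H60.Col.C7
import Pool.Agent.H60.Col.C9
import Pool.Agent.H60.Col.C15

/-! The residue bound for all `x < 2^20`. -/

namespace H60Col

open H1Col

/-- even numbers -/
theorem Bd_even {x : ℕ} (h : x % 2 = 0) (hb : Bd (x / 2)) : Bd x := by
  obtain ⟨y, rfl⟩ : ∃ y, x = 2 * y := ⟨x / 2, by omega⟩
  have e1 : 2 * y / 2 = y := by omega
  have e2 : T (2 * y) = y := by rw [T_even h, e1]
  rw [e1] at hb
  obtain ⟨N, h1, h2⟩ := hb
  refine ⟨N + 1, ?_, ?_⟩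
  · rw [iter_succ_left, e2, h1]
  · rw [od_succ_left, h, e2, Nat.zero_add, pow_succ]
    have e3 : 125315 * 3 ^ od y N * (2 * y) = 2 * (125315 * 3 ^ od y N * y) := by ring
    omega

/-- numbers `2 mod 3` have a smaller predecessor -/
theorem Bd_two {x : ℕ} (h : x % 3 = 2) (ho : x % 2 = 1) (hb : Bd ((2 * x - 1) / 3)) : Bd x := by
  obtain ⟨y, hy⟩ : ∃ y, 2 * x - 1 = 3 * y := ⟨(2 * x - 1) / 3, by omega⟩
  have e1 : (2 * x - 1) / 3 = y := by omega
  rw [e1] at hb
  have hyo : y % 2 = 1 := by omega
  have hTy : T y = x := by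
    rw [T_odd hyo]; omega
  obtain ⟨N, h1, h2⟩ := hb
  rcases N with _ | N
  · simp only [Function.iterate_zero, id] at h1
    omega
  · refine ⟨N, ?_, ?_⟩
    · rw [iter_succ_left, hTy] at h1
      exact h1
    · rw [od_succ_left, hTy, hyo, pow_succ, pow_add, pow_one] at h2
      have h3 : 3 * y ≤ 2 * x := by omega
      have h4 : 125315 * (3 * 3 ^ od x N) * y ≤ 125315 * 3 ^ od x N * (2 * x) := by
        calc 125315 * (3 * 3 ^ od x N) * y = 125315 * 3 ^ od x N * (3 * y) := by ring
          _ ≤ _ := Nat.mul_le_mul_left _ h3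
      have h5 : 125315 * 3 ^ od x N * (2 * x) = 2 * (125315 * 3 ^ od x N * x) := by ring
      omega

/-- numbers `4 mod 9` have a smaller third predecessor -/
theorem Bd_four {x : ℕ} (h : x % 9 = 4) (hb : Bd ((8 * x - 5) / 9)) : Bd x := by
  obtain ⟨k, hk⟩ : ∃ k, x = 9 * k + 4 := ⟨x / 9, by omega⟩
  have e1 : (8 * x - 5) / 9 = 8 * k + 3 := by omega
  rw [e1] at hb
  have t1 : T (8 * k + 3) = 12 * k + 5 := by rw [T_odd (by omega)]; omega
  have t2 : T (12 * k + 5) = 18 * k + 8 := by rw [T_odd (by omega)]; omega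
  have t3 : T (18 * k + 8) = x := by rw [T_even (by omega)]; omega
  obtain ⟨N, h1, h2⟩ := hb
  rcases N with _ | N
  · simp only [Function.iterate_zero, id] at h1
    omega
  rcases N with _ | N
  · rw [iter_succ_left, t1] at h1
    simp only [Function.iterate_zero, id] at h1
    omega
  rcases N with _ | N
  · rw [iter_succ_left, t1, iter_succ_left, t2] at h1
    simp only [Function.iterate_zero, id] at h1
    omega
  refine ⟨N, ?_, ?_⟩
  · rw [iter_succ_left, t1, iter_succ_left, t2, iter_succ_left, t3] at h1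
    exact h1
  · rw [od_succ_left, t1, od_succ_left, t2, od_succ_left, t3] at h2
    have m1 : (8 * k + 3) % 2 = 1 := by omega
    have m2 : (12 * k + 5) % 2 = 1 := by omega
    have m3 : (18 * k + 8) % 2 = 0 := by omega
    rw [m1, m2, m3] at h2
    have h3 : 9 * (8 * k + 3) ≤ 8 * x := by omega
    have h4 : 125315 * 3 ^ (1 + (1 + (0 + od x N))) * (8 * k + 3) ≤
        8 * (125315 * 3 ^ od x N * x) := by
      calc 125315 * 3 ^ (1 + (1 + (0 + od x N))) * (8 * k + 3)
          = 125315 * 3 ^ od x N * (9 * (8 * k + 3)) := by ring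
        _ ≤ 125315 * 3 ^ od x N * (8 * x) := Nat.mul_le_mul_left _ h3
        _ = _ := by ring
    have h5 : 100000 * 2 ^ (N + 1 + 1 + 1) = 8 * (100000 * 2 ^ N) := by ring
    omega

theorem Bd_all : ∀ x : ℕ, 0 < x → x < 2 ^ 20 → Bd x := by
  intro x
  induction x using Nat.strong_induction_on with
  | _ x ih =>
    intro h0 h1
    norm_num at h1
    rcases Nat.mod_two_eq_zero_or_one x with e | e
    · exact Bd_even e (ih (x / 2) (by omega) (by omega) (by norm_num; omega))
    · by_cases h3 : x % 3 = 2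
      · exact Bd_two h3 e (ih _ (by omega) (by omega) (by norm_num; omega))
      · by_cases h4 : x % 9 = 4
        · exact Bd_four h4 (ih _ (by omega) (by omega) (by norm_num; omega))
        · have hi : x / 18 < 58255 := by omega
          have hx : x = 18 * (x / 18) + x % 18 := by omega
          have hm : x % 18 = 1 ∨ x % 18 = 3 ∨ x % 18 = 7 ∨ x % 18 = 9 ∨ x % 18 = 15 := by
            have g1 : x % 2 = x % 18 % 2 := by omega
            have g2 : x % 3 = x % 18 % 3 := by omega
            have g3 : x % 9 = x % 18 % 9 := by omega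
            rw [g1] at e
            rw [g2] at h3
            rw [g3] at h4
            have g4 : x % 18 < 18 := Nat.mod_lt _ (by norm_num)
            clear ih h0 h1 hi hx g1 g2 g3
            generalize x % 18 = r at e h3 h4 g4 ⊢
            interval_cases r <;> omega
          rw [hx]
          rcases hm with h | h | h | h | h <;> rw [h]
          · exact C1.cls hi
          · exact C3.cls hi
          · exact C7.cls hi
          · exact C9.cls hi
          · exact C15.cls hi

theorem V1 : ∀ x : ℕ, 0 < x → x < 2 ^ 20 →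
    ∃ N, T^[N] x = 1 ∧ 100000 * 2 ^ N ≤ 125315 * 3 ^ od x N * x := Bd_all

end H60Col
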