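import Pool.Agent.H1.Col.Basic

/-! Assembly: the residue bound below `566231040` from the exact part `V1` and the descents `V2`. -/

namespace H60Col

open H1Col Finset

/-- the residue bound with constant `ρ` -/
def BR (ρ : ℝ) (x : ℕ) : Prop := ∃ N, T^[N] x = 1 ∧ (2 : ℝ) ^ N ≤ ρ * 3 ^ od x N * x

theorem BR_mono {ρ ρ' : ℝ} (h : ρ ≤ ρ') {x : ℕ} (hx : BR ρ x) : BR ρ' x := by
  obtain ⟨N, h1, h2⟩ := hx
  refine ⟨N, h1, h2.trans ?_⟩
  have : (0 : ℝ) ≤ 3 ^ od x N * x := by positivity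
  nlinarith

/-- a predecessor `y` with `T y = x`, `3 y ≤ 2 x`, `y` odd -/
theorem BR_two {ρ : ℝ} (hρ : 0 ≤ ρ) {x : ℕ} (hx : 2 < x) (h : x % 3 = 2)
    (hb : BR ρ ((2 * x - 1) / 3)) : BR ρ x := by
  obtain ⟨y, hy⟩ : ∃ y, 2 * x - 1 = 3 * y := ⟨(2 * x - 1) / 3, by omega⟩
  have e1 : (2 * x - 1) / 3 = y := by omega
  rw [e1] at hb
  have hyo : y % 2 = 1 := by omega
  have hTy : T y = x := by
    rw [T_odd hyo]; omega
  obtain ⟨N, h1, h2⟩ := hb
  rcases N with _ | N
  · simp only [Function.iterate_zero, id] at h1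
    omega
  · refine ⟨N, ?_, ?_⟩
    · rw [iter_succ_left, hTy] at h1
      exact h1
    · rw [od_succ_left, hTy, hyo, pow_succ, pow_add, pow_one] at h2
      have h3 : (3 : ℝ) * y ≤ 2 * x := by
        have : 3 * y ≤ 2 * x := by omega
        exact_mod_cast this
      have h4 : 0 ≤ ρ * 3 ^ od x N := by positivity
      have h5 : ρ * (3 * 3 ^ od x N) * y ≤ 2 * (ρ * 3 ^ od x N * x) := by
        calc ρ * (3 * 3 ^ od x N) * y = ρ * 3 ^ od x N * (3 * y) := by ring
          _ ≤ ρ * 3 ^ od x N * (2 * x) := mul_le_mul_of_nonneg_left h3 h4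
          _ = _ := by ring
      linarith

theorem BR_four {ρ : ℝ} (hρ : 0 ≤ ρ) {x : ℕ} (h : x % 9 = 4)
    (hb : BR ρ ((8 * x - 5) / 9)) : BR ρ x := by
  obtain ⟨k, hk⟩ : ∃ k, x = 9 * k + 4 := ⟨x / 9, by omega⟩
  have e1 : (8 * x - 5) / 9 = 8 * k + 3 := by omega
  rw [e1] at hb
  have t1 : T (8 * k + 3) = 12 * k + 5 := by rw [T_odd (by omega)]; omega
  have t2 : T (12 * k + 5) = 18 * k + 8 := by rw [T_odd (by omega)]; omega
  have t3 : T (18 * k + 8) = x := by rw [T_even (by omega)]; omega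
  obtain ⟨N, h1, h2⟩ := hb
  rcases N with _ | N
  · simp only [Function.iterate_zero, id] at h1
    omega
  rcases N with _ | N
  · rw [iter_succ_left, t1] at h1
    simp only [Function.iterate_zero, id] at h1
    omega
  rcases N with _ | N
  · rw [iter_succ_left, t1, iter_succ_left, t2] at h1
    simp only [Function.iterate_zero, id] at h1
    omega
  refine ⟨N, ?_, ?_⟩
  · rw [iter_succ_left, t1, iter_succ_left, t2, iter_succ_left, t3] at h1
    exact h1
  · rw [od_succ_left, t1, od_succ_left, t2, od_succ_left, t3] at h2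
    have m1 : (8 * k + 3) % 2 = 1 := by omega
    have m2 : (12 * k + 5) % 2 = 1 := by omega
    have m3 : (18 * k + 8) % 2 = 0 := by omega
    rw [m1, m2, m3] at h2
    have h3 : (9 : ℝ) * ((8 * k + 3 : ℕ) : ℝ) ≤ 8 * x := by
      have : 9 * (8 * k + 3) ≤ 8 * x := by omega
      exact_mod_cast this
    have h4 : 0 ≤ ρ * 3 ^ od x N := by positivity
    have h5 : ρ * 3 ^ (1 + (1 + (0 + od x N))) * ((8 * k + 3 : ℕ) : ℝ) ≤
        8 * (ρ * 3 ^ od x N * x) := by
      calc ρ * 3 ^ (1 + (1 + (0 + od x N))) * ((8 * k + 3 : ℕ) : ℝ)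
          = ρ * 3 ^ od x N * (9 * ((8 * k + 3 : ℕ) : ℝ)) := by ring
        _ ≤ ρ * 3 ^ od x N * (8 * x) := mul_le_mul_of_nonneg_left h3 h4
        _ = _ := by ring
    have h6 : (2 : ℝ) ^ (N + 1 + 1 + 1) = 8 * 2 ^ N := by ring
    linarith

/-- descent: if `a T^[t] x ≤ b x` then there is such a `t' ≤ t` with a good factor -/
theorem descent {a b : ℕ} (ha : 0 < a) (hb : 0 < b) (hba : b < a) {x t : ℕ} (hx : 0 < x)
    (h : a * T^[t] x ≤ b * x) : ∃ t' ≤ t, a * T^[t'] x ≤ b * x ∧ 0 < t' ∧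
      (2 : ℝ) ^ t' * ((T^[t'] x : ℕ) : ℝ) ≤
        3 ^ od x t' * x * Real.exp (t' * (a / (3 * b * x))) := by
  classical
  have hex : ∃ s, a * T^[s] x ≤ b * x := ⟨t, h⟩
  set s := Nat.find hex with hs
  have h1 : a * T^[s] x ≤ b * x := Nat.find_spec hex
  have h2 : ∀ i < s, b * x < a * T^[i] x := fun i hi => by
    have := Nat.find_min hex hi
    omega
  refine ⟨s, Nat.find_min' hex h, h1, ?_, ?_⟩
  · rcases Nat.eq_zero_or_pos s with h0 | h0
    · rw [h0] at h1
      simp only [Function.iterate_zero, id] at h1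
      have := Nat.mul_lt_mul_of_pos_right hba hx
      omega
    · exact h0
  · refine (two_pow_le_exp hx s).trans ?_
    apply mul_le_mul_of_nonneg_left _ (by positivity)
    apply Real.exp_le_exp.2
    have hxr : (0 : ℝ) < x := by exact_mod_cast hx
    have har : (0 : ℝ) < a := by exact_mod_cast ha
    have hbr : (0 : ℝ) < b := by exact_mod_cast hb
    unfold Sm
    calc ∑ i ∈ range s, (if (T^[i] x) % 2 = 1 then 1 / (3 * ((T^[i] x : ℕ) : ℝ)) else 0)
        ≤ ∑ _i ∈ range s, ((a : ℝ) / (3 * b * x)) := by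
          apply sum_le_sum
          intro i hi
          have h3 := h2 i (mem_range.1 hi)
          have h4 : (b : ℝ) * x < a * ((T^[i] x : ℕ) : ℝ) := by exact_mod_cast h3
          have h5 : (0 : ℝ) < ((T^[i] x : ℕ) : ℝ) := by exact_mod_cast iter_pos hx i
          split_ifs
          · rw [div_le_div_iff₀ (by positivity) (by positivity)]
            nlinarith
          · positivity
      _ = s * ((a : ℝ) / (3 * b * x)) := by simp

theorem BR_descent {ρ : ℝ} (hρ : 0 ≤ ρ) {x t : ℕ} {E : ℝ}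
    (h : (2 : ℝ) ^ t * ((T^[t] x : ℕ) : ℝ) ≤ 3 ^ od x t * x * Real.exp E)
    (hy : BR ρ (T^[t] x)) : BR (ρ * Real.exp E) x := by
  obtain ⟨N, h1, h2⟩ := hy
  refine ⟨t + N, ?_, ?_⟩
  · rw [Nat.add_comm, iter_add, h1]
  · rw [od_add, pow_add, pow_add]
    calc (2 : ℝ) ^ t * 2 ^ N ≤ 2 ^ t * (ρ * 3 ^ od (T^[t] x) N * ((T^[t] x : ℕ) : ℝ)) :=
          mul_le_mul_of_nonneg_left h2 (by positivity)
      _ = ρ * 3 ^ od (T^[t] x) N * (2 ^ t * ((T^[t] x : ℕ) : ℝ)) := by ring
      _ ≤ ρ * 3 ^ od (T^[t] x) N * (3 ^ od x t * x * Real.exp E) :=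
          mul_le_mul_of_nonneg_left h (by positivity)
      _ = _ := by ring

/-- the bound used in the induction -/
noncomputable def bb (x : ℕ) : ℝ := 1.25315 * Real.exp (268 * (2 / 2 ^ 20 - 1 / x))

theorem bb_mono {x y : ℕ} (hx : 0 < x) (hxy : x ≤ y) : bb x ≤ bb y := by
  unfold bb
  apply mul_le_mul_of_nonneg_left _ (by norm_num)
  apply Real.exp_le_exp.2
  have h1 : (0 : ℝ) < x := by exact_mod_cast hx
  have h2 : (x : ℝ) ≤ y := by exact_mod_cast hxy
  have h3 : (1 : ℝ) / y ≤ 1 / x := one_div_le_one_div_of_le h1 h2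
  linarith

theorem bb_ge {x : ℕ} (hx : 2 ^ 20 ≤ x) : 1.25315 ≤ bb x := by
  unfold bb
  have h1 : (1048576 : ℝ) ≤ x := by
    have : (1048576 : ℕ) ≤ x := by norm_num at hx; exact hx
    exact_mod_cast this
  have h2 : (1 : ℝ) / x ≤ 1 / 1048576 := one_div_le_one_div_of_le (by norm_num) h1
  have h3 : (0 : ℝ) ≤ 268 * (2 / 2 ^ 20 - 1 / x) := by
    norm_num at h2 ⊢
    linarith
  have h4 := Real.one_le_exp h3
  nlinarith

theorem step_bound {a b : ℕ} (ha : 0 < a) (hb : 0 < b) (hab : a ≤ 2 * b) (hba : b < a)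
    {x t y : ℕ} (hx : 2 ^ 20 ≤ x) (ht : (t : ℝ) * a ≤ 804 * (a - b)) (hy : 0 < y)
    (hyx : a * y ≤ b * x) :
    (if y < 2 ^ 20 then (1.25315 : ℝ) else bb y) * Real.exp (t * (a / (3 * b * x))) ≤ bb x := by
  have har : (0 : ℝ) < a := by exact_mod_cast ha
  have hbr : (0 : ℝ) < b := by exact_mod_cast hb
  have hxn : 0 < x := lt_of_lt_of_le (by norm_num) hx
  have hxr : (0 : ℝ) < x := by exact_mod_cast hxn
  have hyr : (0 : ℝ) < y := by exact_mod_cast hy
  have h1 : (1048576 : ℝ) ≤ x := by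
    have : (1048576 : ℕ) ≤ x := by norm_num at hx; exact hx
    exact_mod_cast this
  have habr : (a : ℝ) ≤ 2 * b := by exact_mod_cast hab
  have hyxr : (a : ℝ) * y ≤ b * x := by exact_mod_cast hyx
  have key : (t : ℝ) * (a / (3 * b * x)) ≤ 268 * (a / (b * x)) - 268 * (1 / x) := by
    have e : 268 * ((a : ℝ) / (b * x)) - 268 * (1 / x) = (804 * (a - b)) / (3 * b * x) := by
      field_simp
      ring
    rw [e, mul_div_assoc']
    apply div_le_div_of_nonneg_right ht (by positivity)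
  split_ifs with hlt
  · unfold bb
    apply mul_le_mul_of_nonneg_left _ (by norm_num)
    apply Real.exp_le_exp.2
    refine key.trans ?_
    have h2 : (a : ℝ) / (b * x) ≤ 2 / 2 ^ 20 := by
      rw [div_le_div_iff₀ (by positivity) (by norm_num)]
      norm_num
      nlinarith
    linarith
  · unfold bb
    rw [mul_assoc, ← Real.exp_add]
    apply mul_le_mul_of_nonneg_left _ (by norm_num)
    apply Real.exp_le_exp.2
    have h2 : (a : ℝ) / (b * x) ≤ 1 / y := by
      rw [div_le_div_iff₀ (by positivity) (by positivity)]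
      linarith
    linarith

theorem verified_of
    (hV1 : ∀ x : ℕ, 0 < x → x < 2 ^ 20 → ∃ N, T^[N] x = 1 ∧
      100000 * 2 ^ N ≤ 125315 * 3 ^ od x N * x)
    (hV2 : ∀ x : ℕ, 2 ^ 20 ≤ x → x < 566231040 → x % 3 = 2 ∨ x % 9 = 4 ∨
      (∃ t ≤ 17, 30 * T^[t] x ≤ 29 * x) ∨ (∃ t ≤ 402, 2 * T^[t] x ≤ x)) :
    ∀ x : ℕ, 0 < x → x < 566231040 →
      ∃ N, T^[N] x = 1 ∧ (2 : ℝ) ^ N ≤ 1.2540 * 3 ^ od x N * x := by
  have hS : ∀ x : ℕ, 0 < x → x < 2 ^ 20 → BR 1.25315 x := by
    intro x h0 h1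
    obtain ⟨N, h2, h3⟩ := hV1 x h0 h1
    refine ⟨N, h2, ?_⟩
    have h4 : (100000 : ℝ) * 2 ^ N ≤ 125315 * 3 ^ od x N * x := by exact_mod_cast h3
    linarith
  have hm : ∀ x : ℕ, 0 < x → x < 566231040 →
      BR (if x < 2 ^ 20 then 1.25315 else bb x) x := by
    intro x
    induction x using Nat.strong_induction_on with
    | _ x ih =>
      intro h0 hB
      by_cases hlt : x < 2 ^ 20
      · rw [if_pos hlt]
        exact hS x h0 hlt
      · rw [if_neg hlt]
        push Not at hlt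
        have hsmall : ∀ y : ℕ, 0 < y → y < x → BR (bb x) y := by
          intro y hy hyx
          refine BR_mono ?_ (ih y hyx hy (by omega))
          split_ifs
          · exact bb_ge hlt
          · exact bb_mono hy hyx.le
        have hbn : 0 ≤ bb x := le_trans (by norm_num) (bb_ge hlt)
        have hxb : 1048576 ≤ x := by norm_num at hlt; exact hlt
        have desc : ∀ a b t : ℕ, 0 < a → 0 < b → a ≤ 2 * b → b < a →
            (∀ s ≤ t, ((s : ℕ) : ℝ) * a ≤ 804 * (a - b)) → a * T^[t] x ≤ b * x → BR (bb x) x := by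
          intro a b t ha hb hab hba ht h
          obtain ⟨s, hs, h1, h2, h3⟩ := descent ha hb hba h0 h
          have hy : 0 < T^[s] x := iter_pos h0 s
          have hyx : T^[s] x < x := by
            by_contra hge
            push Not at hge
            have h4 : a * x ≤ a * T^[s] x := Nat.mul_le_mul_left _ hge
            have h5 : b * x < a * x := Nat.mul_lt_mul_of_pos_right hba h0
            omega
          have h4 := ih _ hyx hy (by omega)
          have hρ : (0 : ℝ) ≤ (if T^[s] x < 2 ^ 20 then 1.25315 else bb (T^[s] x)) := by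
            split_ifs
            · norm_num
            · unfold bb; positivity
          exact BR_mono (step_bound ha hb hab hba hlt (ht s hs) hy h1) (BR_descent hρ h3 h4)
        rcases hV2 x hlt hB with h | h | ⟨t, ht, h⟩ | ⟨t, ht, h⟩
        · exact BR_two hbn (by omega) h (hsmall _ (by omega) (by omega))
        · exact BR_four hbn h (hsmall _ (by omega) (by omega))
        · refine desc 30 29 t (by norm_num) (by norm_num) (by norm_num) (by norm_num) ?_ h
          intro s hs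
          have : (s : ℝ) ≤ 17 := by exact_mod_cast hs.trans ht
          push_cast
          linarith
        · refine desc 2 1 t (by norm_num) (by norm_num) (by norm_num) (by norm_num) ?_ (by omega)
          intro s hs
          have : (s : ℝ) ≤ 402 := by exact_mod_cast hs.trans ht
          push_cast
          linarith
  intro x h0 hB
  have h1 := hm x h0 hB
  have hfin : bb x ≤ 1.2540 := by
    unfold bb
    have hxr : (0 : ℝ) < x := by exact_mod_cast h0
    have h2 : (268 : ℝ) * (2 / 2 ^ 20 - 1 / x) ≤ 0.00052 := by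
      have : (0 : ℝ) < 1 / x := by positivity
      norm_num
      have h3 : (268 : ℝ) * (1 / 524288 - (x : ℝ)⁻¹) ≤ 268 * (1 / 524288) := by
        have : (0 : ℝ) < (x : ℝ)⁻¹ := by positivity
        linarith
      refine h3.trans ?_
      norm_num
    have h3 : Real.exp (268 * (2 / 2 ^ 20 - 1 / x)) ≤ 1 / (1 - 0.00052) := by
      refine (Real.exp_le_exp.2 h2).trans ?_
      have h4 := Real.one_sub_le_exp_neg (0.00052 : ℝ)
      rw [Real.exp_neg] at h4
      have h5 := Real.exp_pos (0.00052 : ℝ)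
      rw [le_div_iff₀ (by norm_num)]
      calc Real.exp 0.00052 * (1 - 0.00052) ≤ Real.exp 0.00052 * (Real.exp 0.00052)⁻¹ :=
            mul_le_mul_of_nonneg_left h4 h5.le
        _ = 1 := mul_inv_cancel₀ h5.ne'
    calc (1.25315 : ℝ) * Real.exp (268 * (2 / 2 ^ 20 - 1 / x))
        ≤ 1.25315 * (1 / (1 - 0.00052)) := mul_le_mul_of_nonneg_left h3 (by norm_num)
      _ ≤ 1.2540 := by norm_num
  refine BR_mono ?_ h1
  split_ifs
  · norm_num
  · exact hfin

end H60Col
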